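import Pool.Agent.Helper10.Lor.Lib
import Pool.Agent.Helper13.Lor.ALG

set_option autoImplicit false

/-!
# Module DIFF : differential geometry of the action on hyperbolic `(n+1)`-space
-/

namespace Pool.Agent.Helper50.Lor

open MeasureTheory Topology
open Pool.Agent.Helper10.Lor
open Pool.Agent.Helper13.Lor

variable {n : ℕ}

theorem isOpen_UH : IsOpen (UH n) := isOpen_lt continuous_const continuous_snd

theorem continuous_lin (g : LV n ≃ₗ[ℝ] LV n) : Continuous g :=
  (LinearMap.toContinuousLinearMap g.toLinearMap).continuous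

theorem contDiff_lin (g : LV n ≃ₗ[ℝ] LV n) : ContDiff ℝ 2 g :=
  (LinearMap.toContinuousLinearMap g.toLinearMap).contDiff

theorem measurable_vec : Measurable (vec : Pt n → LV n) := by
  have h1 : Measurable fun p : Pt n => 1 / p.2 := measurable_const.div measurable_snd
  have h2 : Measurable fun p : Pt n => (‖p.1‖ ^ 2 + p.2 ^ 2) / (2 * p.2) :=
    ((measurable_fst.norm.pow_const 2).add (measurable_snd.pow_const 2)).div
      (measurable_snd.const_mul 2)
  have h3 : Measurable fun p : Pt n => (1 / p.2) • p.1 := h1.smul measurable_fst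
  exact h1.prodMk (h2.prodMk h3)

theorem measurable_pnt : Measurable (pnt : LV n → Pt n) := by
  have h1 : Measurable fun x : LV n => 1 / x.1 := measurable_const.div measurable_fst
  have h3 : Measurable fun x : LV n => (1 / x.1) • x.2.2 :=
    h1.smul (measurable_snd.comp measurable_snd)
  exact h3.prodMk h1

theorem measurable_act (g : LV n ≃ₗ[ℝ] LV n) : Measurable (act g) :=
  measurable_pnt.comp ((continuous_lin g).measurable.comp measurable_vec)

theorem contDiffOn_vec : ContDiffOn ℝ 2 (vec : Pt n → LV n) (UH n) := by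
  have h0 : ContDiffOn ℝ 2 (fun p : Pt n => p.2⁻¹) (UH n) :=
    contDiff_snd.contDiffOn.inv fun p hp => (show (0 : ℝ) < p.2 from hp).ne'
  have h1 : ContDiffOn ℝ 2 (fun p : Pt n => 1 / p.2) (UH n) :=
    h0.congr fun p _ => one_div _
  have h2 : ContDiffOn ℝ 2 (fun p : Pt n => (‖p.1‖ ^ 2 + p.2 ^ 2) / (2 * p.2)) (UH n) := by
    have ha : ContDiff ℝ 2 fun p : Pt n => ‖p.1‖ ^ 2 + p.2 ^ 2 :=
      (contDiff_fst.norm_sq ℝ).add (contDiff_snd.pow 2)
    have hb : ContDiffOn ℝ 2 (fun p : Pt n => (‖p.1‖ ^ 2 + p.2 ^ 2) * (2⁻¹ * p.2⁻¹)) (UH n) :=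
      ha.contDiffOn.mul (contDiffOn_const.mul h0)
    refine hb.congr fun p _ => ?_
    rw [div_eq_mul_inv, mul_inv]
  have h3 : ContDiffOn ℝ 2 (fun p : Pt n => (1 / p.2) • p.1) (UH n) :=
    h1.smul contDiff_fst.contDiffOn
  exact h1.prodMk (h2.prodMk h3)

theorem contDiffOn_pnt : ContDiffOn ℝ 2 (pnt : LV n → Pt n) {x | 0 < x.1} := by
  have h0 : ContDiffOn ℝ 2 (fun x : LV n => x.1⁻¹) {x | 0 < x.1} :=
    contDiff_fst.contDiffOn.inv fun x hx => (show (0 : ℝ) < x.1 from hx).ne'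
  have h1 : ContDiffOn ℝ 2 (fun x : LV n => 1 / x.1) {x | 0 < x.1} :=
    h0.congr fun p _ => one_div _
  have h4 : ContDiff ℝ 2 fun x : LV n => x.2.2 := contDiff_snd.comp contDiff_snd
  have h3 : ContDiffOn ℝ 2 (fun x : LV n => (1 / x.1) • x.2.2) {x | 0 < x.1} :=
    h1.smul h4.contDiffOn
  exact h3.prodMk h1

theorem contDiffOn_act {g : LV n ≃ₗ[ℝ] LV n} (hg : g ∈ LG n) :
    ContDiffOn ℝ 2 (act g) (UH n) := by
  have h1 : ContDiffOn ℝ 2 (fun p : Pt n => g (vec p)) (UH n) :=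
    (contDiff_lin g).comp_contDiffOn contDiffOn_vec
  exact contDiffOn_pnt.comp h1 fun p hp => g_fst_pos hg hp

theorem differentiableAt_act {g : LV n ≃ₗ[ℝ] LV n} (hg : g ∈ LG n) {p : Pt n}
    (hp : p ∈ UH n) : DifferentiableAt ℝ (act g) p :=
  ((contDiffOn_act hg).contDiffAt (isOpen_UH.mem_nhds hp)).differentiableAt (by norm_num)

/-- Euclidean quadratic form -/
noncomputable def Q (v : Pt n) : ℝ := ‖v.1‖ ^ 2 + v.2 ^ 2

theorem continuous_Q : Continuous (Q : Pt n → ℝ) := by unfold Q; fun_prop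

theorem Q_smul (t : ℝ) (v : Pt n) : Q (t • v) = t ^ 2 * Q v := by
  unfold Q
  simp only [Prod.smul_fst, Prod.smul_snd, norm_smul, smul_eq_mul, Real.norm_eq_abs, mul_pow,
    sq_abs]
  ring

theorem Q_act {g : LV n ≃ₗ[ℝ] LV n} (hg : g ∈ LG n) {p q : Pt n} (hp : p ∈ UH n)
    (hq : q ∈ UH n) :
    Q (act g p - act g q) * (p.2 * q.2) = Q (p - q) * ((act g p).2 * (act g q).2) :=
  dist_act hg hp hq

theorem Q_fderiv {g : LV n ≃ₗ[ℝ] LV n} (hg : g ∈ LG n) {p : Pt n} (hp : p ∈ UH n)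
    (e : Pt n) :
    Q (fderiv ℝ (act g) p e) * (p.2 * p.2) = Q e * ((act g p).2 * (act g p).2) := by
  have h0 : HasDerivAt (fun t : ℝ => act g (p + t • e)) (fderiv ℝ (act g) p e) 0 := by
    have h1 : HasDerivAt (fun t : ℝ => p + t • e) e 0 := by
      simpa using ((hasDerivAt_id (0 : ℝ)).smul_const e).const_add p
    have h2 : HasFDerivAt (act g) (fderiv ℝ (act g) p) (p + (0 : ℝ) • e) := by
      simpa using (differentiableAt_act hg hp).hasFDerivAt
    exact h2.comp_hasDerivAt 0 h1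
  have hcont : ContinuousAt (fun t : ℝ => act g (p + t • e)) 0 := h0.continuousAt
  rw [hasDerivAt_iff_tendsto_slope_zero] at h0
  simp only [zero_add, zero_smul, add_zero] at h0
  have hc : Continuous fun t : ℝ => p + t • e := by fun_prop
  have h3 : Filter.Tendsto (fun t : ℝ => Q (t⁻¹ • (act g (p + t • e) - act g p)) *
      ((p + t • e).2 * p.2)) (𝓝[≠] 0) (𝓝 (Q (fderiv ℝ (act g) p e) * (p.2 * p.2))) := by
    refine Filter.Tendsto.mul ((continuous_Q.tendsto _).comp h0) (Filter.Tendsto.mul ?_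
      tendsto_const_nhds)
    have h4 : Filter.Tendsto (fun t : ℝ => (p + t • e).2) (𝓝 0) (𝓝 p.2) := by
      have := (continuous_snd.comp hc).tendsto (0 : ℝ)
      simpa [Function.comp_def] using this
    exact h4.mono_left nhdsWithin_le_nhds
  have h3' : Filter.Tendsto (fun t : ℝ => Q e * ((act g (p + t • e)).2 * (act g p).2))
      (𝓝[≠] 0) (𝓝 (Q e * ((act g p).2 * (act g p).2))) := by
    refine tendsto_const_nhds.mul (Filter.Tendsto.mul ?_ tendsto_const_nhds)
    have h4 : Filter.Tendsto (fun t : ℝ => (act g (p + t • e)).2) (𝓝 0) (𝓝 (act g p).2) := by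
      have := (continuous_snd.continuousAt.comp hcont).tendsto
      simpa [Function.comp_def] using this
    exact h4.mono_left nhdsWithin_le_nhds
  have h5 : ∀ᶠ t : ℝ in 𝓝[≠] 0, Q (t⁻¹ • (act g (p + t • e) - act g p)) *
      ((p + t • e).2 * p.2) = Q e * ((act g (p + t • e)).2 * (act g p).2) := by
    have h6 : ∀ᶠ t : ℝ in 𝓝[≠] 0, p + t • e ∈ UH n := by
      have : ∀ᶠ t : ℝ in 𝓝 0, p + t • e ∈ UH n := by
        apply hc.continuousAt.eventually_mem
        simpa using isOpen_UH.mem_nhds hp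
      exact this.filter_mono nhdsWithin_le_nhds
    have h7 : ∀ᶠ t : ℝ in 𝓝[≠] 0, t ≠ 0 := eventually_mem_nhdsWithin
    filter_upwards [h6, h7] with t ht ht0
    have h8 : p + t • e - p = t • e := by abel
    have h9 := Q_act hg ht hp
    rw [h8, Q_smul] at h9
    rw [Q_smul]
    have h10 : t⁻¹ ^ 2 * t ^ 2 = 1 := by rw [← mul_pow, inv_mul_cancel₀ ht0, one_pow]
    calc t⁻¹ ^ 2 * Q (act g (p + t • e) - act g p) * ((p + t • e).2 * p.2)
        = t⁻¹ ^ 2 * (Q (act g (p + t • e) - act g p) * ((p + t • e).2 * p.2)) := by ring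
      _ = t⁻¹ ^ 2 * (t ^ 2 * Q e * ((act g (p + t • e)).2 * (act g p).2)) := by rw [h9]
      _ = (t⁻¹ ^ 2 * t ^ 2) * (Q e * ((act g (p + t • e)).2 * (act g p).2)) := by ring
      _ = Q e * ((act g (p + t • e)).2 * (act g p).2) := by rw [h10, one_mul]
  exact tendsto_nhds_unique (h3.congr' h5) h3'

/-- the coordinate directions -/
noncomputable def dd : Fin n ⊕ Unit → Pt n
  | Sum.inl k => dir k
  | Sum.inr _ => er

/-- real coordinates -/
noncomputable def coordEquiv : Pt n ≃ₗ[ℝ] (Fin n ⊕ Unit → ℝ) where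
  toFun p := Sum.elim (fun k => p.1 k) (fun _ => p.2)
  invFun v := (WithLp.toLp 2 (fun k => v (Sum.inl k)), v (Sum.inr ()))
  map_add' p q := by
    ext i; rcases i with i | i <;> simp
  map_smul' c p := by
    ext i; rcases i with i | i <;> simp
  left_inv p := by
    refine Prod.ext ?_ ?_
    · ext i; simp
    · simp
  right_inv v := by
    ext i; rcases i with i | i <;> simp

theorem coord_inl (v : Pt n) (k : Fin n) : coordEquiv v (Sum.inl k) = v.1 k := rfl

theorem coord_inr (v : Pt n) (u : Unit) : coordEquiv v (Sum.inr u) = v.2 := rfl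

/-- the real basis `dd` -/
noncomputable def cb : Module.Basis (Fin n ⊕ Unit) ℝ (Pt n) := Module.Basis.ofEquivFun coordEquiv

theorem coord_dd (k i : Fin n ⊕ Unit) :
    coordEquiv (dd k) i = if i = k then (1 : ℝ) else 0 := by
  rcases k with k | k <;> rcases i with i | i
  · rw [coord_inl]
    show (EuclideanSpace.single k (1 : ℝ)) i = _
    rw [PiLp.single_apply]
    simp only [Sum.inl.injEq]
  · rw [coord_inr]
    simp [dd, dir]
  · rw [coord_inl]
    simp [dd, er]
  · rw [coord_inr]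
    simp [dd, er]

theorem cb_eq (k : Fin n ⊕ Unit) : cb k = (dd k : Pt n) := by
  simp only [cb, Module.Basis.coe_ofEquivFun]
  apply coordEquiv.injective
  rw [LinearEquiv.apply_symm_apply]
  ext i
  rw [coord_dd, Pi.single_apply]

theorem cb_repr (v : Pt n) (i : Fin n ⊕ Unit) : cb.repr v i = coordEquiv v i := by
  simp [cb, Module.Basis.ofEquivFun_repr_apply]

theorem Q_coord (v : Pt n) : Q v = ∑ i, coordEquiv v i ^ 2 := by
  unfold Q
  rw [Fintype.sum_sum_type, EuclideanSpace.norm_sq_eq]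
  simp [coord_inl, coord_inr]

/-- matrix of the derivative -/
noncomputable def A (g : LV n ≃ₗ[ℝ] LV n) (p : Pt n) :
    Matrix (Fin n ⊕ Unit) (Fin n ⊕ Unit) ℝ :=
  fun i k => coordEquiv (fderiv ℝ (act g) p (dd k)) i

/-- the similarity ratio -/
noncomputable def rho (g : LV n ≃ₗ[ℝ] LV n) (p : Pt n) : ℝ := (act g p).2 / p.2

theorem rho_pos {g : LV n ≃ₗ[ℝ] LV n} (hg : g ∈ LG n) {p : Pt n} (hp : p ∈ UH n) :
    0 < rho g p := div_pos (act_mem hg hp) hp

theorem A_transpose_mul {g : LV n ≃ₗ[ℝ] LV n} (hg : g ∈ LG n) {p : Pt n} (hp : p ∈ UH n) :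
    (A g p).transpose * A g p
      = (rho g p ^ 2) • (1 : Matrix (Fin n ⊕ Unit) (Fin n ⊕ Unit) ℝ) := by
  have hp' : p.2 ≠ 0 := (show (0 : ℝ) < p.2 from hp).ne'
  have key : ∀ e : Pt n, ∑ i, coordEquiv (fderiv ℝ (act g) p e) i ^ 2
      = rho g p ^ 2 * ∑ i, coordEquiv e i ^ 2 := by
    intro e
    have h := Q_fderiv hg hp e
    rw [← Q_coord, ← Q_coord]
    unfold rho
    rw [div_pow]
    field_simp
    linarith
  ext k l
  rw [Matrix.mul_apply]
  simp only [Matrix.transpose_apply, A, Matrix.smul_apply, smul_eq_mul]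
  have h1 := key (dd k + dd l)
  have h2 := key (dd k)
  have h3 := key (dd l)
  simp only [map_add, Pi.add_apply, add_sq, Finset.sum_add_distrib, coord_dd] at h1 h2 h3
  have h4 : ∑ i : Fin n ⊕ Unit, 2 * (if i = k then (1 : ℝ) else 0) * (if i = l then 1 else 0)
      = 2 * (1 : Matrix (Fin n ⊕ Unit) (Fin n ⊕ Unit) ℝ) k l := by
    rw [Matrix.one_apply]
    by_cases hkl : k = l
    · subst hkl; simp
    · simp only [hkl, if_false, mul_zero]
      apply Finset.sum_eq_zero
      intro i _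
      by_cases hi : i = k
      · subst hi; simp [hkl]
      · simp [hi]
  have h5 : ∑ i : Fin n ⊕ Unit, 2 * coordEquiv (fderiv ℝ (act g) p (dd k)) i *
      coordEquiv (fderiv ℝ (act g) p (dd l)) i
      = 2 * ∑ i : Fin n ⊕ Unit, coordEquiv (fderiv ℝ (act g) p (dd k)) i *
      coordEquiv (fderiv ℝ (act g) p (dd l)) i := by
    rw [Finset.mul_sum]; refine Finset.sum_congr rfl fun i _ => by ring
  rw [h4, h5] at h1
  linarith

theorem A_mul_transpose {g : LV n ≃ₗ[ℝ] LV n} (hg : g ∈ LG n) {p : Pt n} (hp : p ∈ UH n) :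
    A g p * (A g p).transpose
      = (rho g p ^ 2) • (1 : Matrix (Fin n ⊕ Unit) (Fin n ⊕ Unit) ℝ) := by
  have hD : rho g p ^ 2 ≠ 0 := pow_ne_zero 2 (rho_pos hg hp).ne'
  have h1 : ((rho g p ^ 2)⁻¹ • (A g p).transpose) * A g p = 1 := by
    rw [Matrix.smul_mul, A_transpose_mul hg hp, smul_smul, inv_mul_cancel₀ hD, one_smul]
  have h2 := mul_eq_one_comm.mp h1
  rw [Matrix.mul_smul] at h2
  rw [← h2, smul_smul, mul_inv_cancel₀ hD, one_smul]

theorem det_sq {g : LV n ≃ₗ[ℝ] LV n} (hg : g ∈ LG n) {p : Pt n} (hp : p ∈ UH n) :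
    (A g p).det ^ 2 = (rho g p ^ (n + 1)) ^ 2 := by
  have h := congrArg Matrix.det (A_transpose_mul hg hp)
  rw [Matrix.det_mul, Matrix.det_transpose, Matrix.det_smul, Matrix.det_one,
    Fintype.card_sum, Fintype.card_fin, Fintype.card_unit] at h
  rw [pow_two, h, mul_one, ← pow_mul, ← pow_mul, mul_comm 2 (n + 1)]

theorem det_fderiv (g : LV n ≃ₗ[ℝ] LV n) (p : Pt n) :
    (fderiv ℝ (act g) p).det = (A g p).det := by
  rw [ContinuousLinearMap.det, ← LinearMap.det_toMatrix cb]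
  congr 1
  ext i k
  rw [LinearMap.toMatrix_apply, cb_eq, cb_repr]
  rfl

theorem abs_det_fderiv {g : LV n ≃ₗ[ℝ] LV n} (hg : g ∈ LG n) {p : Pt n} (hp : p ∈ UH n) :
    |(fderiv ℝ (act g) p).det| = rho g p ^ (n + 1) := by
  have hD : 0 < rho g p := rho_pos hg hp
  rw [det_fderiv, ← abs_of_pos (by positivity : (0 : ℝ) < rho g p ^ (n + 1))]
  exact (sq_eq_sq_iff_abs_eq_abs _ _).mp (det_sq hg hp)

/-- decomposition of a vector along the coordinate directions -/
theorem decomp (v : Pt n) : v = ∑ i, coordEquiv v i • dd i := by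
  have h := cb.sum_repr v
  simp only [cb_repr, cb_eq] at h
  exact h.symm

theorem clm_apply (F : Pt n →L[ℝ] ℂ) (v : Pt n) :
    F v = ∑ i, (coordEquiv v i : ℂ) * F (dd i) := by
  conv_lhs => rw [decomp v]
  simp only [map_sum, map_smul, Complex.real_smul]

/-- the derivative is a similarity of ratio `rho` -/
theorem sum_fderiv {g : LV n ≃ₗ[ℝ] LV n} (hg : g ∈ LG n) {p : Pt n} (hp : p ∈ UH n)
    (F H : Pt n →L[ℝ] ℂ) :
    ∑ k : Fin n ⊕ Unit, F (fderiv ℝ (act g) p (dd k)) * H (fderiv ℝ (act g) p (dd k))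
      = (∑ k : Fin n ⊕ Unit, F (dd k) * H (dd k)) * (rho g p : ℂ) ^ 2 := by
  have h1 : ∀ k : Fin n ⊕ Unit,
      F (fderiv ℝ (act g) p (dd k)) * H (fderiv ℝ (act g) p (dd k))
      = ∑ i : Fin n ⊕ Unit, ∑ j : Fin n ⊕ Unit,
        ((A g p i k * A g p j k : ℝ) : ℂ) * (F (dd i) * H (dd j)) := by
    intro k
    rw [clm_apply F, clm_apply H, Finset.sum_mul_sum]
    refine Finset.sum_congr rfl fun i _ => Finset.sum_congr rfl fun j _ => ?_
    simp only [A]
    push_cast
    ring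
  simp only [h1]
  rw [Finset.sum_comm]
  have h2 : ∀ i : Fin n ⊕ Unit, ∑ k : Fin n ⊕ Unit, ∑ j : Fin n ⊕ Unit,
      ((A g p i k * A g p j k : ℝ) : ℂ) * (F (dd i) * H (dd j))
      = F (dd i) * H (dd i) * (rho g p : ℂ) ^ 2 := by
    intro i
    rw [Finset.sum_comm]
    have h3 : ∀ j : Fin n ⊕ Unit, ∑ k : Fin n ⊕ Unit,
        ((A g p i k * A g p j k : ℝ) : ℂ) * (F (dd i) * H (dd j))
        = (((A g p * (A g p).transpose) i j : ℝ) : ℂ) * (F (dd i) * H (dd j)) := by
      intro j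
      rw [Matrix.mul_apply, ← Finset.sum_mul]
      simp only [Matrix.transpose_apply]
      push_cast
      rfl
    simp only [h3, A_mul_transpose hg hp, Matrix.smul_apply, smul_eq_mul]
    rw [Finset.sum_eq_single i]
    · rw [Matrix.one_apply_eq]
      push_cast
      ring
    · intro j _ hj
      rw [Matrix.one_apply_ne hj.symm]
      simp
    · intro h; exact absurd (Finset.mem_univ i) h
  simp only [h2]
  rw [Finset.sum_mul]

theorem pd_comp_act {g : LV n ≃ₗ[ℝ] LV n} (hg : g ∈ LG n) {p : Pt n} (hp : p ∈ UH n)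
    {f : Pt n → ℂ} (hf : DifferentiableAt ℝ f (act g p)) (e : Pt n) :
    pd e (fun q => f (act g q)) p = fderiv ℝ f (act g p) (fderiv ℝ (act g) p e) := by
  unfold pd
  have h : (fun q => f (act g q)) = f ∘ act g := rfl
  rw [h, fderiv_comp p hf (differentiableAt_act hg hp)]
  rfl

theorem sum_split (F : Pt n → ℂ) :
    ∑ k : Fin n ⊕ Unit, F (dd k) = ∑ k : Fin n, F (dir k) + F er := by
  rw [Fintype.sum_sum_type]
  simp [dd]

/-- isometry: the bilinear gradient product is invariant -/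
theorem gdot_comp_act {g : LV n ≃ₗ[ℝ] LV n} (hg : g ∈ LG n) {p : Pt n} (hp : p ∈ UH n)
    {f h : Pt n → ℂ} (hf : DifferentiableAt ℝ f (act g p))
    (hh : DifferentiableAt ℝ h (act g p)) :
    gdot (fun q => f (act g q)) (fun q => h (act g q)) p = gdot f h (act g p) := by
  have hp' : (p.2 : ℂ) ≠ 0 := by
    exact_mod_cast (show (0 : ℝ) < p.2 from hp).ne'
  unfold gdot
  simp only [pd_comp_act hg hp hf, pd_comp_act hg hp hh]
  have e := sum_fderiv hg hp (fderiv ℝ f (act g p)) (fderiv ℝ h (act g p))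
  rw [sum_split (fun v => fderiv ℝ f (act g p) (fderiv ℝ (act g) p v) *
    fderiv ℝ h (act g p) (fderiv ℝ (act g) p v)),
    sum_split (fun v => fderiv ℝ f (act g p) v * fderiv ℝ h (act g p) v)] at e
  rw [e]
  simp only [pd, rho]
  push_cast
  field_simp

theorem gsq_comp_act {g : LV n ≃ₗ[ℝ] LV n} (hg : g ∈ LG n) {p : Pt n} (hp : p ∈ UH n)
    {f : Pt n → ℂ} (hf : DifferentiableAt ℝ f (act g p)) :
    gsq (fun q => f (act g q)) p = gsq f (act g p) := by
  have hp' : p.2 ≠ 0 := (show (0 : ℝ) < p.2 from hp).ne'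
  unfold gsq
  simp only [pd_comp_act hg hp hf]
  have h := sum_fderiv hg hp (fderiv ℝ f (act g p))
    (Complex.conjCLE.toContinuousLinearMap.comp (fderiv ℝ f (act g p)))
  simp only [ContinuousLinearMap.comp_apply, ContinuousLinearEquiv.coe_coe,
    Complex.conjCLE_apply, Complex.mul_conj'] at h
  rw [sum_split (fun v => ((‖fderiv ℝ f (act g p) (fderiv ℝ (act g) p v)‖ : ℝ) : ℂ) ^ 2),
    sum_split (fun v => ((‖fderiv ℝ f (act g p) v‖ : ℝ) : ℂ) ^ 2)] at h
  have h' : ∑ k : Fin n, ‖fderiv ℝ f (act g p) (fderiv ℝ (act g) p (dir k))‖ ^ 2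
      + ‖fderiv ℝ f (act g p) (fderiv ℝ (act g) p er)‖ ^ 2
      = (∑ k : Fin n, ‖pd (dir k) f (act g p)‖ ^ 2 + ‖pd er f (act g p)‖ ^ 2)
        * (rho g p) ^ 2 := by
    exact_mod_cast h
  rw [h']
  simp only [rho]
  field_simp

theorem act_inv_act {g : LV n ≃ₗ[ℝ] LV n} (hg : g ∈ LG n) {p : Pt n} (hp : p ∈ UH n) :
    act g⁻¹ (act g p) = p := by
  rw [← act_mul g⁻¹ hg hp, inv_mul_cancel, act_one hp]

theorem act_act_inv {g : LV n ≃ₗ[ℝ] LV n} (hg : g ∈ LG n) {p : Pt n} (hp : p ∈ UH n) :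
    act g (act g⁻¹ p) = p := by
  rw [← act_mul g ((LG n).inv_mem hg) hp, mul_inv_cancel, act_one hp]

theorem image_act {g : LV n ≃ₗ[ℝ] LV n} (hg : g ∈ LG n) : act g '' (UH n) = UH n := by
  apply Set.Subset.antisymm
  · rintro _ ⟨p, hp, rfl⟩
    exact act_mem hg hp
  · intro p hp
    exact ⟨act g⁻¹ p, act_mem ((LG n).inv_mem hg) hp, act_act_inv hg hp⟩

theorem injOn_act {g : LV n ≃ₗ[ℝ] LV n} (hg : g ∈ LG n) : Set.InjOn (act g) (UH n) := by
  intro p hp q hq h
  rw [← act_inv_act hg hp, h, act_inv_act hg hq]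

theorem measurable_weight : Measurable fun p : Pt n => ENNReal.ofReal ((p.2 ^ (n + 1))⁻¹) :=
  ((measurable_snd.pow_const (n + 1)).inv).ennreal_ofReal

theorem lintegral_hyp (F : Pt n → ENNReal) (hF : Measurable F) :
    ∫⁻ p, F p ∂(hyp n) = ∫⁻ p in UH n, ENNReal.ofReal ((p.2 ^ (n + 1))⁻¹) * F p := by
  unfold hyp
  rw [lintegral_withDensity_eq_lintegral_mul _ measurable_weight hF]
  rfl

/-- invariance of the hyperbolic measure -/
theorem measurePreserving_act {g : LV n ≃ₗ[ℝ] LV n} (hg : g ∈ LG n) :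
    MeasurePreserving (act g) (hyp n) (hyp n) := by
  refine ⟨measurable_act g, ?_⟩
  refine Measure.ext_of_lintegral _ fun F hF => ?_
  rw [lintegral_map hF (measurable_act g), lintegral_hyp _ hF,
    lintegral_hyp (fun a => F (act g a)) (hF.comp (measurable_act g))]
  have hms : MeasurableSet (UH n) := isOpen_UH.measurableSet
  have : (volume : Measure (Pt n)).IsAddHaarMeasure :=
    inferInstanceAs (((volume : Measure (E n)).prod (volume : Measure ℝ)).IsAddHaarMeasure)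
  have key := lintegral_image_eq_lintegral_abs_det_fderiv_mul (volume : Measure (Pt n)) hms
    (fun p hp => (differentiableAt_act hg hp).hasFDerivAt.hasFDerivWithinAt) (injOn_act hg)
    (fun p => ENNReal.ofReal ((p.2 ^ (n + 1))⁻¹) * F p)
  rw [image_act hg] at key
  rw [key]
  refine setLIntegral_congr_fun hms fun p hp => ?_
  have hp' : (0 : ℝ) < p.2 := hp
  have hq' : (0 : ℝ) < (act g p).2 := act_mem hg hp
  rw [abs_det_fderiv hg hp, ← mul_assoc, ← ENNReal.ofReal_mul (by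
    have := rho_pos hg hp; positivity)]
  congr 2
  unfold rho
  rw [div_pow]
  field_simp

end Pool.Agent.Helper50.Lor
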