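import Pool.Agent.Helper50.Lor.UNF1

set_option autoImplicit false

/-!
# Strip unfolding, hyperbolic `(n+1)`-space
-/

namespace Pool.Agent.Helper50.Lor

open MeasureTheory Topology
open Pool.Agent.Helper10.Lor
open Pool.Agent.Helper13.Lor

variable {n : ℕ}

/-- the stabiliser of the cusp vector `w0` -/
def Sg (L : AddSubgroup (E n)) : Set (LV n ≃ₗ[ℝ] LV n) := {g | g ∈ OL L ∧ g w0 = w0}

theorem T_zero : T (0 : E n) = 1 := by
  have h := T_add (0 : E n) 0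
  rw [add_zero] at h
  exact (mul_eq_left.1 h.symm)

theorem T_w0 (v : E n) : T v w0 = w0 := by
  show ((0 : ℝ), (1 : ℝ) + inner ℝ (0 : E n) v + 0 * (‖v‖ ^ 2 / 2), (0 : E n) + (0 : ℝ) • v)
    = ((0 : ℝ), (1 : ℝ), (0 : E n))
  simp

/-- the equivalence relation of translates -/
def trel (L : AddSubgroup (E n)) : Setoid (Sg L) where
  r σ τ := ∃ v ∈ L, (τ : LV n ≃ₗ[ℝ] LV n) = T v * σ
  iseqv :=
    { refl := fun σ => ⟨0, L.zero_mem, by rw [T_zero, one_mul]⟩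
      symm := by
        rintro σ τ ⟨v, hv, h⟩
        refine ⟨-v, L.neg_mem hv, ?_⟩
        rw [h, ← mul_assoc, ← T_add, neg_add_cancel, T_zero, one_mul]
      trans := by
        rintro σ τ ρ ⟨v, hv, h⟩ ⟨w, hw, h'⟩
        refine ⟨w + v, L.add_mem hw hv, ?_⟩
        rw [h', h, ← mul_assoc, ← T_add] }

/-- the set of classes -/
abbrev Cls (L : AddSubgroup (E n)) := Quotient (trel L)

theorem height_stab {L : AddSubgroup (E n)} {g : LV n ≃ₗ[ℝ] LV n} (hg : g ∈ Sg L) {p : Pt n}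
    (hp : p ∈ UH n) : (act g p).2 = p.2 := by
  have h1 := uval_act (mem_LG hg.1) w0 hp
  have h2 : g⁻¹ w0 = w0 := by
    have : g⁻¹ (g w0) = w0 := g.symm_apply_apply w0
    rwa [hg.2] at this
  rw [h2, uval_w0 (act_mem (mem_LG hg.1) hp), uval_w0 hp, one_div, one_div] at h1
  exact inv_injective h1

theorem finite_Cls (hA : Inp n) {L : AddSubgroup (E n)} {b : Fin n → E n} (hL : EvenLat L b) :
    Finite (Cls L) := by
  have hp : ((0 : E n), (1 : ℝ)) ∈ UH n := by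
    show (0 : ℝ) < 1
    exact one_pos
  obtain ⟨U, hU, -, hfin⟩ := hA.lf L b hL _ hp (∑ i, ‖b i‖) 1 one_pos
  have hfin2 : Finite {γ : OL L | ∃ q ∈ U, ‖(act γ q).1‖ ≤ ∑ i, ‖b i‖ ∧ 1 ≤ (act γ q).2} := hfin
  -- for every class choose a representative in the finite set
  have hex : ∀ c : Cls L, ∃ σ : Sg L, (Quotient.mk (trel L) σ) = c ∧
      (act (σ : LV n ≃ₗ[ℝ] LV n) ((0 : E n), (1 : ℝ))).1 ∈ cellSet hL := by
    intro c
    obtain ⟨σ, rfl⟩ := Quotient.exists_rep c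
    obtain ⟨x, hx, hxc⟩ := exists_mem_cell hL (act (σ : LV n ≃ₗ[ℝ] LV n) ((0 : E n), (1 : ℝ))).1
    have hT := T_mem_OL hL hx
    have hmem : T x * (σ : LV n ≃ₗ[ℝ] LV n) ∈ Sg L := by
      refine ⟨(OL L).mul_mem hT σ.2.1, ?_⟩
      rw [LinearEquiv.mul_apply, σ.2.2, T_w0]
    refine ⟨⟨_, hmem⟩, Quotient.sound (s := trel L) ?_, ?_⟩
    · exact (trel L).symm ⟨x, hx, rfl⟩
    · show (act (T x * (σ : LV n ≃ₗ[ℝ] LV n)) ((0 : E n), (1 : ℝ))).1 ∈ cellSet hL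
      rw [act_mul _ (mem_LG σ.2.1) hp, act_T _ (act_mem (mem_LG σ.2.1) hp)]
      exact hxc
  choose rep hrep1 hrep2 using hex
  have hmem : ∀ c : Cls L, (⟨(rep c : LV n ≃ₗ[ℝ] LV n), (rep c).2.1⟩ : OL L) ∈
      {γ : OL L | ∃ q ∈ U, ‖(act γ q).1‖ ≤ ∑ i, ‖b i‖ ∧ 1 ≤ (act γ q).2} := by
    intro c
    refine ⟨_, mem_of_mem_nhds hU, cell_bound hL (hrep2 c), ?_⟩
    show 1 ≤ (act (rep c : LV n ≃ₗ[ℝ] LV n) ((0 : E n), (1 : ℝ))).2
    rw [height_stab (rep c).2 hp]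
  have hinj : Function.Injective (fun c : Cls L =>
      (⟨_, hmem c⟩ : {γ : OL L | ∃ q ∈ U, ‖(act γ q).1‖ ≤ ∑ i, ‖b i‖ ∧ 1 ≤ (act γ q).2})) := by
    intro c d hcd
    have h1 := congrArg Subtype.val (congrArg Subtype.val hcd)
    have h2 : rep c = rep d := Subtype.ext h1
    rw [← hrep1 c, ← hrep1 d, h2]
  exact Finite.of_injective _ hinj

theorem nonempty_Cls (L : AddSubgroup (E n)) : Nonempty (Cls L) :=
  ⟨Quotient.mk (trel L) ⟨1, (OL L).one_mem, rfl⟩⟩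

open Classical in
/-- the strip function -/
noncomputable def strip {L : AddSubgroup (E n)} {b : Fin n → E n} (hL : EvenLat L b)
    (ψ : ℝ → ENNReal) : Pt n → ENNReal :=
  Set.indicator (cellSet hL ×ˢ Set.Ioi (0 : ℝ)) (fun p => ψ p.2)

theorem measurable_strip {L : AddSubgroup (E n)} {b : Fin n → E n} (hL : EvenLat L b)
    {ψ : ℝ → ENNReal} (hψ : Measurable ψ) : Measurable (strip hL ψ) :=
  (hψ.comp measurable_snd).indicator ((measurableSet_cellSet hL).prod measurableSet_Ioi)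

theorem sum_stab (hA : Inp n) {L : AddSubgroup (E n)} {b : Fin n → E n} (hL : EvenLat L b)
    (ψ : ℝ → ENNReal) {p : Pt n} (hp : p ∈ UH n) :
    ∑' σ : Sg L, strip hL ψ (act (σ : LV n ≃ₗ[ℝ] LV n) p)
      = (Nat.card (Cls L) : ENNReal) * ψ p.2 := by
  rw [← (Equiv.sigmaFiberEquiv (Quotient.mk (trel L))).tsum_eq, ENNReal.tsum_sigma']
  have hone : ∀ c : Cls L, ∑' σ : {σ // Quotient.mk (trel L) σ = c},
      strip hL ψ (act (((Equiv.sigmaFiberEquiv (Quotient.mk (trel L))) ⟨c, σ⟩ : Sg L) :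
        LV n ≃ₗ[ℝ] LV n) p) = ψ p.2 := by
    intro c
    obtain ⟨σ, rfl⟩ := Quotient.exists_rep c
    obtain ⟨x, hx, hxc⟩ := exists_mem_cell hL (act (σ : LV n ≃ₗ[ℝ] LV n) p).1
    have hT := T_mem_OL hL hx
    have hmem : T x * (σ : LV n ≃ₗ[ℝ] LV n) ∈ Sg L := by
      refine ⟨(OL L).mul_mem hT σ.2.1, ?_⟩
      rw [LinearEquiv.mul_apply, σ.2.2, T_w0]
    have hcls : Quotient.mk (trel L) (⟨_, hmem⟩ : Sg L) = Quotient.mk (trel L) σ :=
      Quotient.sound (s := trel L) ((trel L).symm ⟨x, hx, rfl⟩)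
    have hpos := act_mem (mem_LG σ.2.1) hp
    rw [tsum_eq_single (⟨⟨_, hmem⟩, hcls⟩ :
      {τ // Quotient.mk (trel L) τ = Quotient.mk (trel L) σ})]
    · show strip hL ψ (act (T x * (σ : LV n ≃ₗ[ℝ] LV n)) p) = _
      rw [act_mul _ (mem_LG σ.2.1) hp, act_T _ hpos, height_stab σ.2 hp]
      unfold strip
      rw [Set.indicator_of_mem]
      exact ⟨hxc, hp⟩
    · rintro ⟨τ, hτ⟩ hne
      show strip hL ψ (act (τ : LV n ≃ₗ[ℝ] LV n) p) = 0
      obtain ⟨v, hv, hvτ⟩ := Quotient.exact (s := trel L) hτ.symm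
      rw [hvτ, act_mul _ (mem_LG σ.2.1) hp, act_T _ hpos]
      unfold strip
      rw [Set.indicator_of_notMem]
      intro hcell
      apply hne
      apply Subtype.ext
      apply Subtype.ext
      show (τ : LV n ≃ₗ[ℝ] LV n) = T x * (σ : LV n ≃ₗ[ℝ] LV n)
      have hc : (act (σ : LV n ≃ₗ[ℝ] LV n) p).1 + v ∈ cellSet hL := hcell.1
      have h0 : v - x = 0 := by
        refine cell_unique hL (L.sub_mem hv hx) hxc ?_
        have : (act (σ : LV n ≃ₗ[ℝ] LV n) p).1 + x + (v - x)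
          = (act (σ : LV n ≃ₗ[ℝ] LV n) p).1 + v := by abel
        rw [this]
        exact hc
      rw [hvτ, sub_eq_zero.1 h0]
  rw [tsum_congr hone]
  have : Finite (Cls L) := finite_Cls hA hL
  have hfin : Fintype (Cls L) := Fintype.ofFinite _
  rw [tsum_fintype, Finset.sum_const, nsmul_eq_mul, Finset.card_univ, Nat.card_eq_fintype_card]

/-- the cusp vector of a group element -/
noncomputable def cusp {L : AddSubgroup (E n)} (γ : OL L) : Orb L :=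
  ⟨((γ⁻¹ : OL L) : LV n ≃ₗ[ℝ] LV n) w0, _, (γ⁻¹ : OL L).2, rfl⟩

theorem inv_mul_apply' (g : LV n ≃ₗ[ℝ] LV n) (x : LV n) : g (g⁻¹ x) = x := g.apply_symm_apply x

theorem cusp_eq {L : AddSubgroup (E n)} {γ γ₁ : OL L} (h : cusp γ = cusp γ₁) :
    (γ : LV n ≃ₗ[ℝ] LV n) * (γ₁ : LV n ≃ₗ[ℝ] LV n)⁻¹ ∈ Sg L := by
  refine ⟨(OL L).mul_mem γ.2 ((OL L).inv_mem γ₁.2), ?_⟩
  have h1 : (γ : LV n ≃ₗ[ℝ] LV n)⁻¹ w0 = (γ₁ : LV n ≃ₗ[ℝ] LV n)⁻¹ w0 := congrArg Subtype.val h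
  rw [LinearEquiv.mul_apply, ← h1, inv_mul_apply']

/-- the fibre of `cusp` -/
noncomputable def fibEquiv {L : AddSubgroup (E n)} (γ₁ : OL L) :
    {γ : OL L // cusp γ = cusp γ₁} ≃ Sg L where
  toFun γ := ⟨_, cusp_eq γ.2⟩
  invFun σ := ⟨⟨(σ : LV n ≃ₗ[ℝ] LV n) * γ₁, (OL L).mul_mem σ.2.1 γ₁.2⟩, by
    apply Subtype.ext
    show ((σ : LV n ≃ₗ[ℝ] LV n) * (γ₁ : LV n ≃ₗ[ℝ] LV n))⁻¹ w0
      = (γ₁ : LV n ≃ₗ[ℝ] LV n)⁻¹ w0
    rw [mul_inv_rev, LinearEquiv.mul_apply]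
    have : (σ : LV n ≃ₗ[ℝ] LV n)⁻¹ w0 = w0 := by
      have h : (σ : LV n ≃ₗ[ℝ] LV n)⁻¹ ((σ : LV n ≃ₗ[ℝ] LV n) w0) = w0 :=
        (σ : LV n ≃ₗ[ℝ] LV n).symm_apply_apply w0
      rwa [σ.2.2] at h
    rw [this]⟩
  left_inv γ := Subtype.ext (Subtype.ext (inv_mul_cancel_right _ _))
  right_inv σ := Subtype.ext (mul_inv_cancel_right _ _)

theorem sum_fibre (hA : Inp n) {L : AddSubgroup (E n)} {b : Fin n → E n} (hL : EvenLat L b)
    (ψ : ℝ → ENNReal) {p : Pt n} (hp : p ∈ UH n) (γ₁ : OL L) :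
    ∑' γ : {γ : OL L // cusp γ = cusp γ₁}, strip hL ψ (act (γ.1 : LV n ≃ₗ[ℝ] LV n) p)
      = (Nat.card (Cls L) : ENNReal) * ψ (act (γ₁ : LV n ≃ₗ[ℝ] LV n) p).2 := by
  rw [← sum_stab hA hL ψ (act_mem (mem_LG γ₁.2) hp), ← (fibEquiv γ₁).symm.tsum_eq]
  refine tsum_congr fun σ => ?_
  show strip hL ψ (act ((σ : LV n ≃ₗ[ℝ] LV n) * (γ₁ : LV n ≃ₗ[ℝ] LV n)) p) = _
  rw [act_mul _ (mem_LG γ₁.2) hp]

theorem one_div_uval {L : AddSubgroup (E n)} (γ : OL L) {p : Pt n} (hp : p ∈ UH n) :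
    1 / uval (cusp γ : LV n) p = (act (γ : LV n ≃ₗ[ℝ] LV n) p).2 := by
  have h := uval_act (mem_LG γ.2) w0 hp
  rw [uval_w0 (act_mem (mem_LG γ.2) hp)] at h
  show 1 / uval ((γ : LV n ≃ₗ[ℝ] LV n)⁻¹ w0) p = _
  rw [← h, one_div_one_div]

theorem sum_strip (hA : Inp n) {L : AddSubgroup (E n)} {b : Fin n → E n} (hL : EvenLat L b)
    (ψ : ℝ → ENNReal) {p : Pt n} (hp : p ∈ UH n) :
    ∑' γ : OL L, strip hL ψ (act γ p)
      = (Nat.card (Cls L) : ENNReal) * ∑' w : Orb L, ψ (1 / uval w p) := by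
  rw [← (Equiv.sigmaFiberEquiv (cusp (L := L))).tsum_eq, ENNReal.tsum_sigma',
    ← ENNReal.tsum_mul_left]
  refine tsum_congr fun w => ?_
  obtain ⟨w, γ₀, hγ₀, hw⟩ := w
  have hrow : (⟨w, γ₀, hγ₀, hw⟩ : Orb L) = cusp (⟨γ₀, hγ₀⟩⁻¹ : OL L) := by
    apply Subtype.ext
    show w = ((γ₀⁻¹)⁻¹ : LV n ≃ₗ[ℝ] LV n) w0
    rw [inv_inv]
    exact hw
  rw [hrow]
  have h := sum_fibre hA hL ψ hp (⟨γ₀, hγ₀⟩⁻¹ : OL L)
  rw [one_div_uval _ hp]
  exact h

theorem lintegral_strip {L : AddSubgroup (E n)} {b : Fin n → E n} (hL : EvenLat L b)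
    {c : ENNReal} (hc : (volume : Measure (E n)) = c • Measure.map (parL hL) volume)
    (hct : c ≠ ⊤) {ψ : ℝ → ENNReal} (hψ : Measurable ψ) {F : Pt n → ENNReal}
    (hF : Measurable F) :
    ∫⁻ p, strip hL ψ p * F p ∂(hyp n) = c *
      ∫⁻ r in Set.Ioi (0 : ℝ), ψ r * cellInt b F r * ENNReal.ofReal ((r ^ (n + 1))⁻¹) := by
  have hd : Measurable fun p : Pt n => ENNReal.ofReal ((p.2 ^ (n + 1))⁻¹) :=
    ENNReal.measurable_ofReal.comp (by fun_prop)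
  have hη := measurable_strip hL hψ
  have hUH : UH n = Set.univ ×ˢ Set.Ioi (0 : ℝ) := by
    ext p
    simp [UH]
  have hm : Measurable fun p : Pt n => strip hL ψ p * F p := hη.mul hF
  have hm2 : Measurable fun p : Pt n =>
      ENNReal.ofReal ((p.2 ^ (n + 1))⁻¹) * (strip hL ψ p * F p) :=
    hd.mul hm
  have e0 : ∫⁻ p, strip hL ψ p * F p ∂(hyp n) = ∫⁻ r in Set.Ioi (0 : ℝ), ∫⁻ z : E n,
      (fun p : Pt n => ENNReal.ofReal ((p.2 ^ (n + 1))⁻¹) * (strip hL ψ p * F p)) (z, r) := by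
    unfold hyp
    rw [lintegral_withDensity_eq_lintegral_mul _ hd hm, hUH, Measure.volume_eq_prod,
      ← Measure.prod_restrict, Measure.restrict_univ]
    exact lintegral_prod_symm' _ hm2
  rw [e0]
  have hcell : ∀ r ∈ Set.Ioi (0 : ℝ), ∫⁻ z : E n,
      (fun p : Pt n => ENNReal.ofReal ((p.2 ^ (n + 1))⁻¹) *
      (strip hL ψ p * F p)) (z, r) = c * (ψ r * cellInt b F r *
        ENNReal.ofReal ((r ^ (n + 1))⁻¹)) := by
    intro r hr
    have hFr : Measurable fun z : E n => F (z, r) := hF.comp (by fun_prop)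
    have e1 : ∫⁻ z : E n, (fun p : Pt n => ENNReal.ofReal ((p.2 ^ (n + 1))⁻¹) *
        (strip hL ψ p * F p)) (z, r) =
        ∫⁻ z in cellSet hL, ENNReal.ofReal ((r ^ (n + 1))⁻¹) * (ψ r * F (z, r)) := by
      rw [← lintegral_indicator (measurableSet_cellSet hL)]
      refine lintegral_congr fun z => ?_
      by_cases hz : z ∈ cellSet hL
      · rw [Set.indicator_of_mem hz]
        unfold strip
        simp only
        rw [Set.indicator_of_mem (show (z, r) ∈ cellSet hL ×ˢ Set.Ioi (0 : ℝ) from ⟨hz, hr⟩)]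
      · rw [Set.indicator_of_notMem hz]
        unfold strip
        simp only
        rw [Set.indicator_of_notMem (show (z, r) ∉ cellSet hL ×ˢ Set.Ioi (0 : ℝ) from
          fun h => hz h.1)]
        simp
    rw [e1, lintegral_const_mul _ (hFr.const_mul _), lintegral_const_mul _ hFr,
      lintegral_cell hL hc _ hFr]
    unfold cellInt
    ring
  rw [← lintegral_const_mul']
  · exact setLIntegral_congr_fun measurableSet_Ioi hcell
  · exact hct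

theorem strip_unfold_aux (hA : Inp n) {L : AddSubgroup (E n)} {b : Fin n → E n}
    (hL : EvenLat L b) {κ : Pt n → ℝ} {C a : ℝ} (hK : Kap L κ C a) :
    ∃ K : ENNReal, K ≠ 0 ∧ K ≠ ⊤ ∧ ∀ (ψ : ℝ → ENNReal) (F : Pt n → ENNReal), Measurable ψ →
      Measurable F → (∀ γ ∈ OL L, ∀ p ∈ UH n, F (act γ p) = F p) →
      ∫⁻ r in Set.Ioi (0 : ℝ), ψ r * cellInt b F r * ENNReal.ofReal ((r ^ (n + 1))⁻¹)
        = K * ∫⁻ p, ENNReal.ofReal (κ p) * (∑' w : Orb L, ψ (1 / uval w p)) * F p ∂(hyp n) := by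
  obtain ⟨c, hc0, hct, hc⟩ := exists_const hL
  have hfin : Finite (Cls L) := finite_Cls hA hL
  have hN0 : (Nat.card (Cls L) : ENNReal) ≠ 0 := by
    have : Nonempty (Cls L) := nonempty_Cls L
    exact_mod_cast Nat.card_pos.ne'
  have hNt : (Nat.card (Cls L) : ENNReal) ≠ ⊤ := ENNReal.natCast_ne_top _
  refine ⟨c⁻¹ * Nat.card (Cls L), mul_ne_zero (ENNReal.inv_ne_zero.2 hct) hN0,
    ENNReal.mul_ne_top (ENNReal.inv_ne_top.2 hc0) hNt, ?_⟩
  intro ψ F hψ hF hinv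
  have h1 := unfold_aux hA hL hK (strip hL ψ) F (measurable_strip hL hψ) hF hinv
  have h2 : ∫⁻ p, ENNReal.ofReal (κ p) * (∑' γ : OL L, strip hL ψ (act γ p)) * F p ∂(hyp n) =
      Nat.card (Cls L) *
        ∫⁻ p, ENNReal.ofReal (κ p) * (∑' w : Orb L, ψ (1 / uval w p)) * F p ∂(hyp n) := by
    rw [← lintegral_const_mul' _ _ hNt]
    refine lintegral_congr_ae ?_
    filter_upwards [ae_UH] with p hp
    rw [sum_strip hA hL ψ hp]
    ring
  rw [lintegral_strip hL hc hct hψ hF, h2] at h1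
  rw [mul_assoc, ← h1, ← mul_assoc, ENNReal.inv_mul_cancel hc0 hct, one_mul]

end Pool.Agent.Helper50.Lor
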