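import Pool.Agent.Helper50.Lor.UNF2
import Pool.Agent.Helper50.Lor.DIFF
import Pool.Agent.Helper64.Lor.DISC

/-!
# Unfolding on the hyperbolic space of an even lattice

Glue of the modules `UNF2`, `DIFF` and `DISC`.
-/

set_option autoImplicit false

namespace Pool.Agent.Helper50.Lor

open MeasureTheory Topology Pool.Agent.Helper10.Lor

variable {n : ℕ}

/-- the inputs of the unfolding -/
theorem inp (n : ℕ) : Inp n where
  meas := fun g => measurable_act g
  mp := fun _ hg => measurePreserving_act hg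
  count := fun _ _ hL => Pool.Agent.Helper64.Lor.countable_OL hL
  lf := fun _ _ hL _ hp C a ha => Pool.Agent.Helper64.Lor.local_finite hL hp C a ha

theorem unfold {L : AddSubgroup (E n)} {b : Fin n → E n} (hL : EvenLat L b) {κ : Pt n → ℝ}
    {C a : ℝ} (hK : Kap L κ C a)
    (η F : Pt n → ENNReal) (hη : Measurable η) (hF : Measurable F)
    (hinv : ∀ γ ∈ OL L, ∀ p ∈ UH n, F (act γ p) = F p) :
    ∫⁻ p, η p * F p ∂(hyp n)
      = ∫⁻ p, ENNReal.ofReal (κ p) * (∑' γ : OL L, η (act γ p)) * F p ∂(hyp n) :=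
  unfold_aux (inp n) hL hK η F hη hF hinv

/-- strip unfolding (cusp cell), with an unspecified constant `K` -/
theorem strip_unfold {L : AddSubgroup (E n)} {b : Fin n → E n} (hL : EvenLat L b)
    {κ : Pt n → ℝ} {C a : ℝ} (hK : Kap L κ C a) :
    ∃ K : ENNReal, K ≠ 0 ∧ K ≠ ⊤ ∧ ∀ (ψ : ℝ → ENNReal) (F : Pt n → ENNReal), Measurable ψ →
      Measurable F → (∀ γ ∈ OL L, ∀ p ∈ UH n, F (act γ p) = F p) →
      ∫⁻ r in Set.Ioi (0 : ℝ), ψ r * cellInt b F r * ENNReal.ofReal ((r ^ (n + 1))⁻¹)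
        = K * ∫⁻ p, ENNReal.ofReal (κ p) * (∑' w : Orb L, ψ (1 / uval w p)) * F p ∂(hyp n) :=
  strip_unfold_aux (inp n) hL hK

end Pool.Agent.Helper50.Lor
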