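import Pool.Agent.Helper10.Lor.Lib
import Pool.Agent.Helper13.Lor.ALG

set_option autoImplicit false

/-!
# Unfolding with a partition of unity, hyperbolic `(n+1)`-space
-/

namespace Pool.Agent.Helper50.Lor

open MeasureTheory Topology
open Pool.Agent.Helper10.Lor
open Pool.Agent.Helper13.Lor

variable {n : ℕ}

/-- inputs from the modules DIFF and DISC -/
structure Inp (n : ℕ) : Prop where
  meas : ∀ g : LV n ≃ₗ[ℝ] LV n, Measurable (act g)
  mp : ∀ g : LV n ≃ₗ[ℝ] LV n, g ∈ LG n → MeasurePreserving (act g) (hyp n) (hyp n)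
  count : ∀ (L : AddSubgroup (E n)) (b : Fin n → E n), EvenLat L b → Countable (OL L)
  lf : ∀ (L : AddSubgroup (E n)) (b : Fin n → E n), EvenLat L b → ∀ p : Pt n, p ∈ UH n →
    ∀ C a : ℝ, 0 < a → ∃ U ∈ 𝓝 p, U ⊆ UH n ∧
      {γ : OL L | ∃ q ∈ U, ‖(act γ q).1‖ ≤ C ∧ a ≤ (act γ q).2}.Finite

theorem measurableSet_UH : MeasurableSet (UH n) :=
  measurableSet_lt measurable_const measurable_snd

theorem ae_UH : ∀ᵐ p ∂(hyp n), p ∈ UH n :=
  (withDensity_absolutelyContinuous _ _).ae_le (ae_restrict_mem measurableSet_UH)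

theorem sum_kap {L : AddSubgroup (E n)} {κ : Pt n → ℝ} {C a : ℝ} (hK : Kap L κ C a) {p : Pt n}
    (hp : p ∈ UH n) : ∑' γ : OL L, ENNReal.ofReal (κ (act γ p)) = 1 := by
  have h := hK.sum p hp
  rw [← ENNReal.ofReal_tsum_of_nonneg (fun γ => hK.nonneg _) h.summable, h.tsum_eq,
    ENNReal.ofReal_one]

theorem mem_LG {L : AddSubgroup (E n)} {g : LV n ≃ₗ[ℝ] LV n} (h : g ∈ OL L) : g ∈ LG n := h.1

theorem unfold_aux (hA : Inp n) {L : AddSubgroup (E n)} {b : Fin n → E n} (hL : EvenLat L b)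
    {κ : Pt n → ℝ} {C a : ℝ} (hK : Kap L κ C a)
    (η F : Pt n → ENNReal) (hη : Measurable η) (hF : Measurable F)
    (hinv : ∀ γ ∈ OL L, ∀ p ∈ UH n, F (act γ p) = F p) :
    ∫⁻ p, η p * F p ∂(hyp n)
      = ∫⁻ p, ENNReal.ofReal (κ p) * (∑' γ : OL L, η (act γ p)) * F p ∂(hyp n) := by
  have hcount := hA.count L b hL
  have hact := hA.meas
  have hκ : Measurable (fun p => ENNReal.ofReal (κ p)) :=
    ENNReal.measurable_ofReal.comp hK.smooth.continuous.measurable
  calc ∫⁻ p, η p * F p ∂(hyp n)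
      = ∫⁻ p, ∑' γ : OL L, ENNReal.ofReal (κ (act γ p)) * η p * F p ∂(hyp n) := by
        refine lintegral_congr_ae ?_
        filter_upwards [ae_UH] with p hp
        simp only [mul_assoc]
        rw [ENNReal.tsum_mul_right, sum_kap hK hp, one_mul]
    _ = ∑' γ : OL L, ∫⁻ p, ENNReal.ofReal (κ (act γ p)) * η p * F p ∂(hyp n) := by
        refine lintegral_tsum fun γ => ?_
        exact (((hκ.comp (hact γ)).mul hη).mul hF).aemeasurable
    _ = ∑' γ : OL L, ∫⁻ p, ENNReal.ofReal (κ p) * η (act (γ⁻¹ : OL L) p) * F p ∂(hyp n) := by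
        refine tsum_congr fun γ => ?_
        have hm : Measurable (fun p => ENNReal.ofReal (κ (act (γ : LV n ≃ₗ[ℝ] LV n) p))
            * η p * F p) :=
          ((hκ.comp (hact γ)).mul hη).mul hF
        rw [← (hA.mp ((γ⁻¹ : OL L) : LV n ≃ₗ[ℝ] LV n)
          (mem_LG (γ⁻¹ : OL L).2)).lintegral_comp hm]
        refine lintegral_congr_ae ?_
        filter_upwards [ae_UH] with p hp
        show ENNReal.ofReal (κ (act γ (act ((γ⁻¹ : OL L) : LV n ≃ₗ[ℝ] LV n) p)))
          * η (act ((γ⁻¹ : OL L) : LV n ≃ₗ[ℝ] LV n) p)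
          * F (act ((γ⁻¹ : OL L) : LV n ≃ₗ[ℝ] LV n) p) = _
        have h1 : act (γ : LV n ≃ₗ[ℝ] LV n) (act ((γ⁻¹ : OL L) : LV n ≃ₗ[ℝ] LV n) p) = p := by
          rw [← act_mul _ (mem_LG (γ⁻¹ : OL L).2) hp, ← Subgroup.coe_mul,
            mul_inv_cancel, Subgroup.coe_one, act_one hp]
        rw [h1, hinv _ (γ⁻¹ : OL L).2 p hp]
    _ = ∑' γ : OL L, ∫⁻ p, ENNReal.ofReal (κ p) * η (act γ p) * F p ∂(hyp n) :=
        (Equiv.inv (OL L)).tsum_eq
          (fun γ : OL L => ∫⁻ p, ENNReal.ofReal (κ p) * η (act (γ : LV n ≃ₗ[ℝ] LV n) p)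
            * F p ∂(hyp n))
    _ = ∫⁻ p, ∑' γ : OL L, ENNReal.ofReal (κ p) * η (act γ p) * F p ∂(hyp n) := by
        refine (lintegral_tsum fun γ => ?_).symm
        exact ((hκ.mul (hη.comp (hact γ))).mul hF).aemeasurable
    _ = _ := by
        refine lintegral_congr fun p => ?_
        rw [ENNReal.tsum_mul_right, ENNReal.tsum_mul_left]

/-! ## The cell -/

/-- the basis of `ℝⁿ` -/
noncomputable def bas {L : AddSubgroup (E n)} {b : Fin n → E n} (hL : EvenLat L b) :
    Module.Basis (Fin n) ℝ (E n) :=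
  Module.Basis.mk hL.li (hL.li.span_eq_top_of_card_eq_finrank' (by simp)).ge

/-- the parametrisation -/
noncomputable def parL {L : AddSubgroup (E n)} {b : Fin n → E n} (hL : EvenLat L b) :
    (Fin n → ℝ) ≃L[ℝ] E n := (bas hL).equivFunL.symm

theorem parL_apply {L : AddSubgroup (E n)} {b : Fin n → E n} (hL : EvenLat L b)
    (x : Fin n → ℝ) : parL hL x = ∑ i, x i • b i := by
  show (bas hL).equivFun.symm x = _
  rw [Module.Basis.equivFun_symm_apply]
  refine Finset.sum_congr rfl fun i _ => ?_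
  rw [bas, Module.Basis.mk_apply]

/-- coordinates -/
noncomputable def crd {L : AddSubgroup (E n)} {b : Fin n → E n} (hL : EvenLat L b) (z : E n) :
    Fin n → ℝ := (parL hL).symm z

theorem crd_par {L : AddSubgroup (E n)} {b : Fin n → E n} (hL : EvenLat L b)
    (x : Fin n → ℝ) : crd hL (parL hL x) = x := (parL hL).symm_apply_apply x

theorem par_crd {L : AddSubgroup (E n)} {b : Fin n → E n} (hL : EvenLat L b)
    (z : E n) : parL hL (crd hL z) = z := (parL hL).apply_symm_apply z

theorem crd_add {L : AddSubgroup (E n)} {b : Fin n → E n} (hL : EvenLat L b) (z w : E n) :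
    crd hL (z + w) = crd hL z + crd hL w := (parL hL).symm.map_add z w

theorem measurable_par {L : AddSubgroup (E n)} {b : Fin n → E n} (hL : EvenLat L b) :
    Measurable (parL hL) := (parL hL).continuous.measurable

theorem measurable_crd {L : AddSubgroup (E n)} {b : Fin n → E n} (hL : EvenLat L b) :
    Measurable (crd hL) := (parL hL).symm.continuous.measurable

/-- the half-open unit cube -/
def cube (n : ℕ) : Set (Fin n → ℝ) := Set.univ.pi fun _ => Set.Ico (0 : ℝ) 1

theorem measurableSet_cube : MeasurableSet (cube n) :=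
  MeasurableSet.univ_pi fun _ => measurableSet_Ico

/-- the half-open unit cell -/
def cellSet {L : AddSubgroup (E n)} {b : Fin n → E n} (hL : EvenLat L b) : Set (E n) :=
  crd hL ⁻¹' cube n

theorem measurableSet_cellSet {L : AddSubgroup (E n)} {b : Fin n → E n} (hL : EvenLat L b) :
    MeasurableSet (cellSet hL) := measurable_crd hL measurableSet_cube

theorem exists_mem_cell {L : AddSubgroup (E n)} {b : Fin n → E n} (hL : EvenLat L b) (z : E n) :
    ∃ x ∈ L, z + x ∈ cellSet hL := by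
  refine ⟨parL hL fun i => ((-⌊crd hL z i⌋ : ℤ) : ℝ), (hL.mem _).2
    ⟨fun i => -⌊crd hL z i⌋, parL_apply hL _⟩, ?_⟩
  intro i _
  rw [crd_add, crd_par, Pi.add_apply]
  push_cast
  have h1 := Int.fract_nonneg (crd hL z i)
  have h2 := Int.fract_lt_one (crd hL z i)
  unfold Int.fract at h1 h2
  exact ⟨by linarith, by linarith⟩

theorem cell_unique {L : AddSubgroup (E n)} {b : Fin n → E n} (hL : EvenLat L b) {z x : E n}
    (hx : x ∈ L) (h1 : z ∈ cellSet hL) (h2 : z + x ∈ cellSet hL) : x = 0 := by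
  obtain ⟨m, rfl⟩ := (hL.mem x).1 hx
  rw [← parL_apply hL (fun i => (m i : ℝ))] at h2 ⊢
  have key : ∀ i, m i = 0 := by
    intro i
    have e1 := h1 i (Set.mem_univ i)
    have e2 := h2 i (Set.mem_univ i)
    rw [crd_add, crd_par, Pi.add_apply] at e2
    have a1 := e1.1
    have a2 := e1.2
    have a3 := e2.1
    have a4 := e2.2
    have f1 : (-1 : ℝ) < m i := by linarith
    have f2 : (m i : ℝ) < 1 := by linarith
    have f3 : (-1 : ℤ) < m i := by exact_mod_cast f1
    have f4 : m i < (1 : ℤ) := by exact_mod_cast f2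
    omega
  have : (fun i => (m i : ℝ)) = 0 := by
    ext i
    simp [key i]
  rw [this, map_zero]

theorem cell_bound {L : AddSubgroup (E n)} {b : Fin n → E n} (hL : EvenLat L b) {z : E n}
    (h : z ∈ cellSet hL) : ‖z‖ ≤ ∑ i, ‖b i‖ := by
  rw [← par_crd hL z, parL_apply]
  refine (norm_sum_le _ _).trans (Finset.sum_le_sum fun i _ => ?_)
  have h1 := h i (Set.mem_univ i)
  rw [norm_smul, Real.norm_of_nonneg h1.1]
  exact mul_le_of_le_one_left (norm_nonneg _) h1.2.le

/-- Haar constant of the parametrisation -/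
theorem exists_const {L : AddSubgroup (E n)} {b : Fin n → E n} (hL : EvenLat L b) :
    ∃ c : ENNReal, c ≠ 0 ∧ c ≠ ⊤ ∧
    (volume : Measure (E n)) = c • Measure.map (parL hL) volume := by
  have h1 : (Measure.map (⇑(parL hL)) (volume : Measure (Fin n → ℝ))).IsAddHaarMeasure :=
    ContinuousLinearEquiv.isAddHaarMeasure_map (parL hL) volume
  have h2 := Measure.isAddLeftInvariant_eq_smul (volume : Measure (E n))
    (Measure.map (⇑(parL hL)) (volume : Measure (Fin n → ℝ)))
  have h3 := Measure.addHaarScalarFactor_pos_of_isAddHaarMeasure (volume : Measure (E n))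
    (Measure.map (⇑(parL hL)) (volume : Measure (Fin n → ℝ)))
  refine ⟨Measure.addHaarScalarFactor (volume : Measure (E n))
    (Measure.map (⇑(parL hL)) (volume : Measure (Fin n → ℝ))), ?_, ENNReal.coe_ne_top, h2⟩
  exact_mod_cast h3.ne'

/-- integration over the half-open cell -/
theorem lintegral_cell {L : AddSubgroup (E n)} {b : Fin n → E n} (hL : EvenLat L b)
    {c : ENNReal} (hc : (volume : Measure (E n)) = c • Measure.map (parL hL) volume)
    (G : E n → ENNReal) (hG : Measurable G) :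
    ∫⁻ z in cellSet hL, G z = c * ∫⁻ x in Set.Icc (0 : Fin n → ℝ) 1, G (∑ i, x i • b i) := by
  rw [hc, Measure.restrict_smul, lintegral_smul_measure,
    Measure.restrict_map (measurable_par hL) (measurableSet_cellSet hL),
    lintegral_map hG (measurable_par hL), smul_eq_mul]
  congr 1
  have hpre : parL hL ⁻¹' cellSet hL = cube n := by
    ext x
    show crd hL (parL hL x) ∈ cube n ↔ x ∈ cube n
    rw [crd_par]
  have hae : cube n =ᵐ[volume] Set.Icc (0 : Fin n → ℝ) 1 := by
    have := Measure.univ_pi_Ico_ae_eq_Icc (μ := fun _ : Fin n => (volume : Measure ℝ))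
      (f := (0 : Fin n → ℝ)) (g := (1 : Fin n → ℝ))
    exact this
  rw [hpre, Measure.restrict_congr_set hae]
  refine lintegral_congr fun x => ?_
  rw [parL_apply]

end Pool.Agent.Helper50.Lor
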